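import Pool.Agent.H89.MT.Targets

/-! (BER) the Bernoulli measure -/

open MeasureTheory ProbabilityTheory Filter Topology Finset
open scoped ENNReal

namespace Pool.Agent.H60.MT

open Pool.Agent.H89.MT

private theorem ae_fair : ∀ᵐ y : I1 ∂fair, |(y : ℝ)| = 1 := by
  have hm : MeasurableSet {y : I1 | |(y : ℝ)| = 1} :=
    measurableSet_eq_fun (by fun_prop) measurable_const
  unfold fair
  rw [ae_add_measure_iff]
  constructor
  · refine Measure.ae_smul_measure ?_ _
    rw [ae_dirac_iff hm]
    simp [o1]
  · refine Measure.ae_smul_measure ?_ _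
    rw [ae_dirac_iff hm]
    simp [m1]

private theorem int_fair : ∫ y : I1, (y : ℝ) ∂fair = 0 := by
  unfold fair
  rw [integral_add_measure]
  · rw [integral_smul_measure, integral_smul_measure, integral_dirac, integral_dirac]
    simp [o1, m1]
  · refine Integrable.smul_measure ?_ (by simp)
    exact integrable_dirac (by simp)
  · refine Integrable.smul_measure ?_ (by simp)
    exact integrable_dirac (by simp)

theorem pf_BER : T_BER := by
  refine ⟨?_, ?_⟩
  · rw [ae_all_iff]
    intro j
    have h : MeasurePreserving (Function.eval j) bern fair :=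
      measurePreserving_eval_infinitePi (fun _ : ℤ => fair) j
    exact h.quasiMeasurePreserving.ae ae_fair
  · intro J hJ
    have h1 : ∫ x, ∏ j ∈ J, (x j : ℝ) ∂bern =
        ∫ y : (j : J) → I1, ∏ j : J, (y j : ℝ) ∂(Measure.pi fun _ : J => fair) := by
      have h2 := integral_restrict_infinitePi (μ := fun _ : ℤ => fair) (s := J)
        (f := fun y : (j : J) → I1 => ∏ j : J, (y j : ℝ)) (by
          refine Measurable.aestronglyMeasurable ?_
          exact Finset.measurable_prod _ fun j _ => by fun_prop)
      rw [← h2]
      refine integral_congr_ae (Eventually.of_forall fun x => ?_)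
      show ∏ j ∈ J, (x j : ℝ) = ∏ j : J, (x j : ℝ)
      exact (Finset.prod_coe_sort J fun j => (x j : ℝ)).symm
    rw [h1, integral_fintype_prod_eq_prod (f := fun (_ : J) (y : I1) => (y : ℝ))]
    obtain ⟨j, hj⟩ := hJ
    exact Finset.prod_eq_zero (Finset.mem_univ (⟨j, hj⟩ : J)) int_fair

end Pool.Agent.H60.MT
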